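import Pool.Agent.P8H30.OX.Stm
import Pool.Agent.P8H21.MX.Dual

/-!
# Project OX, package CON1: connection between `0` and the reflection point
-/

set_option autoImplicit false

open Filter Topology Matrix

namespace Pool.Agent.P8H21.OX

open Pool.Agent.Y119.HY
open Pool.Agent.P8H30.OX (Xp)

variable {n : ℕ}

lemma half_ne (p : ℤ) : ((p : ℂ) + 1 / 2) ≠ 0 := by
  intro h
  have h1 : ((2 * p + 1 : ℤ) : ℂ) = 0 := by
    push_cast
    linear_combination 2 * h
  have h2 : (2 * p + 1 : ℤ) = 0 := by exact_mod_cast h1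
  omega

lemma Xp_mul_neg {lam : ℂ} (hl : lam ≠ 0) {N : Matrix (Fin n) (Fin n) ℂ} (h : N * N = lam • N) (ζ : ℂ) :
    Xp lam N ζ * Xp lam N (-ζ) = 1 := by
  unfold Xp
  have e : Complex.exp (lam * -ζ) = (Complex.exp (lam * ζ))⁻¹ := by
    rw [mul_neg, Complex.exp_neg]
  have e0 : Complex.exp (lam * ζ) ≠ 0 := Complex.exp_ne_zero _
  rw [e, add_mul, mul_add, mul_add, one_mul, one_mul, mul_one, smul_mul_smul_comm, h, smul_smul]
  rw [add_assoc, ← add_assoc _ _ (_ • N), ← add_smul, ← add_smul]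
  have e2 : (((Complex.exp (lam * ζ))⁻¹ - 1) / lam + (Complex.exp (lam * ζ) - 1) / lam +
      (Complex.exp (lam * ζ) - 1) / lam * (((Complex.exp (lam * ζ))⁻¹ - 1) / lam) * lam) = 0 := by
    field_simp
    ring
  rw [e2, zero_smul, add_zero]

lemma Xp_HD {lam : ℂ} (hl : lam ≠ 0) {N : Matrix (Fin n) (Fin n) ℂ} (h : N * N = lam • N) (ζ : ℂ) :
    HD (Xp lam N) (N * Xp lam N ζ) ζ := by
  have e : N * Xp lam N ζ = Complex.exp (lam * ζ) • N := by
    unfold Xp
    rw [mul_add, mul_one, mul_smul_comm, h, smul_smul, div_mul_cancel₀ _ hl, sub_smul, one_smul]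
    abel
  rw [e]
  intro i j
  have h1 : (fun w => Xp lam N w i j) = fun w => (1 : Matrix (Fin n) (Fin n) ℂ) i j +
      ((Complex.exp (lam * w) - 1) / lam) * N i j := by
    funext w
    unfold Xp
    rw [Matrix.add_apply, Matrix.smul_apply, smul_eq_mul]
  rw [h1, Matrix.smul_apply, smul_eq_mul]
  have h2 : HasDerivAt (fun w : ℂ => lam * w) lam ζ := by
    simpa using (hasDerivAt_id ζ).const_mul lam
  have h3 := (((h2.cexp.sub_const 1).div_const lam).mul_const (N i j)).const_add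
    ((1 : Matrix (Fin n) (Fin n) ℂ) i j)
  refine h3.congr_deriv ?_
  rw [mul_div_assoc, div_self hl, mul_one]

theorem con1 (hloc : Pool.Agent.P8H30.OX.S_LOC) (hhod : Pool.Agent.P8H30.OX.S_HOD)
    (hdual : Pool.Agent.P8H30.MX.S_DUAL) : Pool.Agent.P8H30.OX.S_CON1 := by
  intro n A B H p hA hB hH
  set lam : ℂ := (p : ℂ) + 1 / 2 with hlam
  have hl : lam ≠ 0 := half_ne p
  obtain ⟨K, hK, hKg⟩ := hloc n (-B) (-A) p hB
  have hA' : (-A.transpose) ^ n = 0 := Pool.Agent.P8H21.MX.nil_dual hA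
  obtain ⟨H', hH'⟩ := exists_sol hA' (-B.transpose)
  set N : Matrix (Fin n) (Fin n) ℂ := -B with hN
  set Z : ℂ → Matrix (Fin n) (Fin n) ℂ := fun z => Hf K (1 - z) * Xp lam N (Complex.log (1 - z)) with hZ
  have hhalf : ((1 / 2 : ℝ) : ℂ) ∈ Lens := real_mem_Lens (by norm_num) (by norm_num)
  -- the derivative of the solution at the reflection point
  have hWd : ∀ w ∈ Lens, HD (fun w => Hf K w * Xp lam N (Complex.log w))
      (Gm N (-A) w * (Hf K w * Xp lam N (Complex.log w))) w := by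
    intro w hw
    have hs := slit_Lens hw
    have h1 := hhod n N (-A) K hK hKg w (mem_Lens.1 hw).1 (Complex.slitPlane_ne_zero hs)
    have h2 : HD (fun w => Xp lam N (Complex.log w)) (w⁻¹ • (N * Xp lam N (Complex.log w))) w :=
      (Xp_HD hl hB (Complex.log w)).comp (Complex.hasDerivAt_log hs)
    refine (h1.mul h2).congr ?_
    unfold Gm
    simp only [add_mul, smul_mul_assoc, sub_mul, mul_smul_comm, Matrix.mul_assoc, smul_sub, one_div]
    abel
  have hZd : ∀ z ∈ Lens, HD Z (Gm A B z * Z z) z := by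
    intro z hz
    have h1 := hWd _ (symm_Lens hz)
    have h2 : HasDerivAt (fun w : ℂ => 1 - w) (-1) z := by
      simpa using (hasDerivAt_id z).const_sub 1
    refine (h1.comp h2).congr ?_
    rw [hZ, ← smul_mul_assoc]
    congr 1
    unfold Gm
    rw [sub_sub_cancel, hN, smul_neg, smul_neg]
    rw [← neg_add, neg_smul, one_smul, neg_neg, add_comm]
  have hY'd : ∀ z ∈ Lens, HD (Yf (-A.transpose) H') (-(Gm A B z).transpose * Yf (-A.transpose) H' z) z := by
    intro z hz
    have h2 := Yf_ode hH' hA' (mem_Lens.1 hz).1 (slit_Lens hz)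
    rw [Pool.Agent.P8H21.MX.Gm_dual] at h2
    exact h2
  set C := (Yf (-A.transpose) H' ((1 / 2 : ℝ) : ℂ)).transpose * Z ((1 / 2 : ℝ) : ℂ) with hC
  have hCc : ∀ z ∈ Lens, (Yf (-A.transpose) H' z).transpose * Z z = C := fun z hz =>
    const_Lens (F := fun z => (Yf (-A.transpose) H' z).transpose * Z z)
      (fun x hx => Pool.Agent.P8H21.MX.pair2 (hY'd x hx) (hZd x hx)) hz hhalf
  have hZC : ∀ z ∈ Lens, Z z = Yf A H z * C := by
    intro z hz
    have h1 := hdual n A B H H' hA hH hH' z hz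
    have h2 : Yf A H z * (Yf (-A.transpose) H' z).transpose = 1 := mul_eq_one_comm.1 h1
    rw [← hCc z hz, ← Matrix.mul_assoc, h2, one_mul]
  -- a point where the solution is invertible
  have hdet : ∃ x : ℝ, 0 < x ∧ x < 1 ∧ (Hf K (x : ℂ)).det ≠ 0 := by
    have hc : ContinuousAt (fun w => (Hf K w).det) 0 := by
      refine ContinuousAt.comp (g := fun M : Matrix (Fin n) (Fin n) ℂ => M.det) (continuous_id.matrix_det).continuousAt ?_
      refine continuousAt_pi.2 fun i => continuousAt_pi.2 fun j => ?_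
      exact ((ps_an (hKg i j)) 0 (Metric.mem_ball_self one_pos)).continuousAt
    have h0 : (Hf K 0).det ≠ 0 := by
      rw [Hf_zero hK, det_one]
      exact one_ne_zero
    have h1 : ∀ᶠ w in 𝓝 (0 : ℂ), (Hf K w).det ≠ 0 := hc.eventually_ne h0
    have h2 : Tendsto (fun x : ℝ => (x : ℂ)) (𝓝[>] 0) (𝓝 (0 : ℂ)) := by
      have := (Complex.continuous_ofReal.tendsto 0).mono_left (nhdsWithin_le_nhds (s := Set.Ioi (0 : ℝ)))
      simpa using this
    have h3 : ∀ᶠ x : ℝ in 𝓝[>] 0, x < 1 :=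
      (eventually_lt_nhds (by norm_num : (0 : ℝ) < 1)).filter_mono nhdsWithin_le_nhds
    obtain ⟨x, ⟨hx1, hx2⟩, hx3⟩ := (((h2.eventually h1).and h3).and
      (eventually_mem_nhdsWithin (a := (0 : ℝ)) (s := Set.Ioi (0 : ℝ)))).exists
    exact ⟨x, hx3, hx2, hx1⟩
  have hCdet : C.det ≠ 0 := by
    obtain ⟨x, hx0, hx1, hx⟩ := hdet
    have hz : ((1 - x : ℝ) : ℂ) ∈ Lens := real_mem_Lens (by linarith) (by linarith)
    have h1 := hZC _ hz
    have h2 : Z ((1 - x : ℝ) : ℂ) = Hf K (x : ℂ) * Xp lam N (Complex.log (x : ℂ)) := by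
      rw [hZ]
      simp only
      have : (1 : ℂ) - ((1 - x : ℝ) : ℂ) = (x : ℂ) := by push_cast; ring
      rw [this]
    have h3 := congrArg Matrix.det (Xp_mul_neg hl hB (Complex.log (x : ℂ)))
    rw [det_mul, det_one] at h3
    have h4 := congrArg Matrix.det h1
    rw [h2, det_mul, det_mul] at h4
    intro h5
    rw [h5, mul_zero] at h4
    rcases mul_eq_zero.1 h4 with h6 | h6
    · exact hx h6
    · rw [h6, zero_mul] at h3
      exact zero_ne_one h3
  have hCu : IsUnit C.det := Ne.isUnit hCdet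
  refine ⟨K, C⁻¹, C, hKg, nonsing_inv_mul _ hCu, mul_nonsing_inv _ hCu, fun z hz => ?_⟩
  have h1 := hZC z hz
  change Yf A H z = Z z * C⁻¹
  rw [h1, Matrix.mul_assoc, mul_nonsing_inv _ hCu, mul_one]

end Pool.Agent.P8H21.OX
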