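import Pool.Agent.P8H30.OX.Stm

/-!
# Project OX, packages LOC and HOD: local theory with half-integral exponents
(adapted from `Y119/HY/Loc.lean`)
-/

set_option autoImplicit false

open Filter Topology Matrix

namespace Pool.Agent.P8H21.OX

open Pool.Agent.Y119.HY

variable {n : ℕ}

/-- the cube of `DD` -/
lemma DD_cube {N0 : Matrix (Fin n) (Fin n) ℂ} {lam : ℂ} (h : N0 * N0 = lam • N0) (Y : Matrix (Fin n) (Fin n) ℂ) :
    DD N0 (DD N0 (DD N0 Y)) = (lam ^ 2) • DD N0 Y := by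
  simp only [DD_apply]
  have e1 : (((Y * N0 - N0 * Y) * N0 - N0 * (Y * N0 - N0 * Y)) * N0 -
      N0 * ((Y * N0 - N0 * Y) * N0 - N0 * (Y * N0 - N0 * Y))) =
      Y * (N0 * N0) * N0 - (3 : ℂ) • (N0 * Y * (N0 * N0)) + (3 : ℂ) • ((N0 * N0) * Y * N0) -
        N0 * (N0 * N0) * Y := by
    simp only [sub_mul, mul_sub, Matrix.mul_assoc]
    module
  rw [e1, h]
  simp only [mul_smul_comm, smul_mul_assoc, Matrix.mul_assoc, h]
  module

/-- the inverse of `κ + D` -/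
noncomputable def RS (N0 : Matrix (Fin n) (Fin n) ℂ) (lam κ : ℂ) (Y : Matrix (Fin n) (Fin n) ℂ) :
    Matrix (Fin n) (Fin n) ℂ :=
  κ⁻¹ • Y - (κ ^ 2 - lam ^ 2)⁻¹ • DD N0 Y + (κ⁻¹ * (κ ^ 2 - lam ^ 2)⁻¹) • DD N0 (DD N0 Y)

lemma RS_right {N0 : Matrix (Fin n) (Fin n) ℂ} {lam κ : ℂ} (h : N0 * N0 = lam • N0) (hκ : κ ≠ 0)
    (hq : κ ^ 2 - lam ^ 2 ≠ 0) (Y : Matrix (Fin n) (Fin n) ℂ) :
    κ • RS N0 lam κ Y + DD N0 (RS N0 lam κ Y) = Y := by
  unfold RS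
  rw [map_add, map_sub, map_smul, map_smul, map_smul, DD_cube h]
  set D1 := DD N0 Y
  set D2 := DD N0 D1
  match_scalars
  · field_simp
  · field_simp
    ring
  · field_simp
    ring

lemma norm_half (k : ℕ) (p : ℤ) : ((k : ℝ) + 1) / 2 ≤ ‖((k : ℂ) + 1) ^ 2 - ((p : ℂ) + 1 / 2) ^ 2‖ := by
  have e : ((k : ℂ) + 1) ^ 2 - ((p : ℂ) + 1 / 2) ^ 2 =
      ((((k : ℝ) + 1) ^ 2 - ((p : ℝ) + 1 / 2) ^ 2 : ℝ) : ℂ) := by push_cast; ring
  rw [e, Complex.norm_real, Real.norm_eq_abs]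
  have e2 : ((k : ℝ) + 1) ^ 2 - ((p : ℝ) + 1 / 2) ^ 2 =
      (((k : ℝ) + 1) - ((p : ℝ) + 1 / 2)) * (((k : ℝ) + 1) + ((p : ℝ) + 1 / 2)) := by ring
  rw [e2, abs_mul]
  have hk : (0 : ℝ) ≤ k := Nat.cast_nonneg k
  have hh : ∀ m : ℤ, (1 : ℝ) / 2 ≤ |(m : ℝ) + 1 / 2| := by
    intro m
    rcases le_or_gt 0 m with h | h
    · have : (0 : ℝ) ≤ m := by exact_mod_cast h
      rw [abs_of_nonneg (by linarith)]
      linarith
    · have : (m : ℝ) ≤ -1 := by exact_mod_cast (by omega : m ≤ -1)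
      rw [abs_of_nonpos (by linarith)]
      linarith
  have h1 := hh (k + 1 - p - 1)
  have h2 := hh (k + 1 + p)
  have h1' : (1 : ℝ) / 2 ≤ |((k : ℝ) + 1) - ((p : ℝ) + 1 / 2)| := by
    convert h1 using 2
    push_cast
    ring
  have h2' : (1 : ℝ) / 2 ≤ |((k : ℝ) + 1) + ((p : ℝ) + 1 / 2)| := by
    convert h2 using 2
    push_cast
    ring
  rcases le_or_gt 0 ((p : ℝ) + 1 / 2) with h | h
  · have h3 : (k : ℝ) + 1 ≤ |((k : ℝ) + 1) + ((p : ℝ) + 1 / 2)| := by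
      rw [abs_of_nonneg (by linarith)]
      linarith
    calc ((k : ℝ) + 1) / 2 = 1 / 2 * ((k : ℝ) + 1) := by ring
      _ ≤ _ := mul_le_mul h1' h3 (by positivity) (abs_nonneg _)
  · have h3 : (k : ℝ) + 1 ≤ |((k : ℝ) + 1) - ((p : ℝ) + 1 / 2)| := by
      rw [abs_of_nonneg (by linarith)]
      linarith
    calc ((k : ℝ) + 1) / 2 = ((k : ℝ) + 1) * (1 / 2) := by ring
      _ ≤ _ := mul_le_mul h3 h2' (by positivity) (abs_nonneg _)

section growth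

attribute [local instance] Matrix.linftyOpNormedAddCommGroup Matrix.linftyOpNormedRing Matrix.linftyOpNormedAlgebra

lemma RS_norm (N0 : Matrix (Fin n) (Fin n) ℂ) (p : ℤ) (k : ℕ) (Y : Matrix (Fin n) (Fin n) ℂ) :
    ‖RS N0 ((p : ℂ) + 1 / 2) ((k : ℂ) + 1) Y‖ ≤
      (1 + 2 * (2 * ‖N0‖) + 2 * (2 * ‖N0‖) ^ 2) / ((k : ℝ) + 1) * ‖Y‖ := by
  have hk : (1 : ℝ) ≤ (k : ℝ) + 1 := by linarith [Nat.cast_nonneg (α := ℝ) k]
  have hk0 : (0 : ℝ) < (k : ℝ) + 1 := by linarith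
  have h1 : ‖((k : ℂ) + 1)‖ = (k : ℝ) + 1 := by
    have : ((k : ℂ) + 1) = (((k : ℝ) + 1 : ℝ) : ℂ) := by push_cast; rfl
    rw [this, Complex.norm_real, Real.norm_of_nonneg (by linarith)]
  have h2 := norm_half k p
  have h3 : ‖(((k : ℂ) + 1) ^ 2 - ((p : ℂ) + 1 / 2) ^ 2)⁻¹‖ ≤ 2 / ((k : ℝ) + 1) := by
    rw [norm_inv]
    calc _ ≤ (((k : ℝ) + 1) / 2)⁻¹ := inv_anti₀ (by positivity) h2
      _ = _ := by rw [inv_div]
  have h4 : ‖((k : ℂ) + 1)⁻¹‖ ≤ 1 := by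
    rw [norm_inv, h1]
    exact inv_le_one_of_one_le₀ hk
  have d1 := DD_norm (N0 := N0) Y
  have d2 : ‖DD N0 (DD N0 Y)‖ ≤ (2 * ‖N0‖) ^ 2 * ‖Y‖ := by
    calc _ ≤ (2 * ‖N0‖) * ‖DD N0 Y‖ := DD_norm _
      _ ≤ (2 * ‖N0‖) * ((2 * ‖N0‖) * ‖Y‖) := mul_le_mul_of_nonneg_left d1 (by positivity)
      _ = _ := by ring
  unfold RS
  have t1 : ‖((k : ℂ) + 1)⁻¹ • Y‖ ≤ 1 / ((k : ℝ) + 1) * ‖Y‖ := by
    rw [norm_smul, norm_inv, h1, one_div]
  have t2 : ‖(((k : ℂ) + 1) ^ 2 - ((p : ℂ) + 1 / 2) ^ 2)⁻¹ • DD N0 Y‖ ≤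
      2 / ((k : ℝ) + 1) * ((2 * ‖N0‖) * ‖Y‖) := by
    rw [norm_smul]
    exact mul_le_mul h3 d1 (norm_nonneg _) (by positivity)
  have t3 : ‖(((k : ℂ) + 1)⁻¹ * (((k : ℂ) + 1) ^ 2 - ((p : ℂ) + 1 / 2) ^ 2)⁻¹) • DD N0 (DD N0 Y)‖ ≤
      2 / ((k : ℝ) + 1) * ((2 * ‖N0‖) ^ 2 * ‖Y‖) := by
    rw [norm_smul, norm_mul]
    refine mul_le_mul ?_ d2 (norm_nonneg _) (by positivity)
    calc _ ≤ 1 * (2 / ((k : ℝ) + 1)) := mul_le_mul h4 h3 (norm_nonneg _) (by positivity)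
      _ = _ := one_mul _
  calc _ ≤ (‖((k : ℂ) + 1)⁻¹ • Y‖ + ‖(((k : ℂ) + 1) ^ 2 - ((p : ℂ) + 1 / 2) ^ 2)⁻¹ • DD N0 Y‖) +
        ‖(((k : ℂ) + 1)⁻¹ * (((k : ℂ) + 1) ^ 2 - ((p : ℂ) + 1 / 2) ^ 2)⁻¹) • DD N0 (DD N0 Y)‖ :=
        (norm_add_le _ _).trans (add_le_add (norm_sub_le _ _) le_rfl)
    _ ≤ (1 / ((k : ℝ) + 1) * ‖Y‖ + 2 / ((k : ℝ) + 1) * ((2 * ‖N0‖) * ‖Y‖)) +
        2 / ((k : ℝ) + 1) * ((2 * ‖N0‖) ^ 2 * ‖Y‖) := add_le_add (add_le_add t1 t2) t3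
    _ = _ := by field_simp

theorem loc : Pool.Agent.P8H30.OX.S_LOC := by
  intro n N0 N1 p h
  set lam : ℂ := (p : ℂ) + 1 / 2 with hlam
  set H : ℕ → Matrix (Fin n) (Fin n) ℂ := fun k => Nat.rec (motive := fun _ => Matrix (Fin n) (Fin n) ℂ) 1
    (fun k X => X + RS N0 lam ((k : ℂ) + 1) ((N1 - 1) * X)) k with hH
  have hs : ∀ k, H (k + 1) = H k + RS N0 lam ((k : ℂ) + 1) ((N1 - 1) * H k) := fun k => rfl
  set K1 : ℝ := (1 + 2 * (2 * ‖N0‖) + 2 * (2 * ‖N0‖) ^ 2) * ‖N1 - 1‖ with hK1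
  have hK10 : 0 ≤ K1 := by positivity
  set q : ℕ := ⌈K1⌉₊ with hq
  refine ⟨H, ⟨rfl, fun k => ?_⟩, ?_⟩
  · have h1 : ((k : ℂ) + 1) ≠ 0 := by exact_mod_cast Nat.succ_ne_zero k
    have h2 : ((k : ℂ) + 1) ^ 2 - lam ^ 2 ≠ 0 := by
      intro h0
      have := norm_half k p
      rw [← hlam, h0, norm_zero] at this
      linarith [Nat.cast_nonneg (α := ℝ) k]
    have h3 := RS_right h h1 h2 ((N1 - 1) * H k)
    rw [hs k, ← DD_apply, ← DD_apply, map_add, smul_add]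
    have e : ((k : ℂ) + 1) • H k + ((k : ℂ) + 1) • RS N0 lam ((k : ℂ) + 1) ((N1 - 1) * H k) +
        (DD N0 (H k) + DD N0 (RS N0 lam ((k : ℂ) + 1) ((N1 - 1) * H k))) =
        ((k : ℂ) + 1) • H k + DD N0 (H k) + (((k : ℂ) + 1) • RS N0 lam ((k : ℂ) + 1) ((N1 - 1) * H k) +
          DD N0 (RS N0 lam ((k : ℂ) + 1) ((N1 - 1) * H k))) := by abel
    rw [e, h3, sub_mul, one_mul, add_smul, one_smul]
    abel
  · have hstep : ∀ k, ‖H (k + 1)‖ ≤ (1 + K1 / ((k : ℝ) + 1)) * ‖H k‖ := by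
      intro k
      have h6 : ‖RS N0 lam ((k : ℂ) + 1) ((N1 - 1) * H k)‖ ≤ K1 / ((k : ℝ) + 1) * ‖H k‖ := by
        refine (RS_norm N0 p k _).trans ?_
        calc _ ≤ (1 + 2 * (2 * ‖N0‖) + 2 * (2 * ‖N0‖) ^ 2) / ((k : ℝ) + 1) * (‖N1 - 1‖ * ‖H k‖) :=
              mul_le_mul_of_nonneg_left (norm_mul_le _ _) (by positivity)
          _ = _ := by rw [hK1]; ring
      rw [hs k]
      calc _ ≤ ‖H k‖ + ‖RS N0 lam ((k : ℂ) + 1) ((N1 - 1) * H k)‖ := norm_add_le _ _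
        _ ≤ _ := by linarith
    have hbd : ∀ k : ℕ, ‖H k‖ ≤ ‖H 0‖ * ((k : ℝ) + 1) ^ q := by
      intro k
      induction k with
      | zero => simp
      | succ k ih =>
        have hk : (0 : ℝ) < (k : ℝ) + 1 := by positivity
        have h1 : 1 + K1 / ((k : ℝ) + 1) ≤ (1 + 1 / ((k : ℝ) + 1)) ^ q := by
          have h2 := one_add_mul_le_pow (a := 1 / ((k : ℝ) + 1))
            (by have : (0 : ℝ) ≤ 1 / ((k : ℝ) + 1) := by positivity
                linarith) q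
          refine le_trans ?_ h2
          have : K1 ≤ q := Nat.le_ceil _
          rw [mul_one_div]
          gcongr
        calc ‖H (k + 1)‖ ≤ (1 + K1 / ((k : ℝ) + 1)) * ‖H k‖ := hstep k
          _ ≤ (1 + 1 / ((k : ℝ) + 1)) ^ q * (‖H 0‖ * ((k : ℝ) + 1) ^ q) :=
            mul_le_mul h1 ih (norm_nonneg _) (by positivity)
          _ = ‖H 0‖ * ((1 + 1 / ((k : ℝ) + 1)) * ((k : ℝ) + 1)) ^ q := by rw [mul_pow]; ring
          _ = ‖H 0‖ * (((k + 1 : ℕ) : ℝ) + 1) ^ q := by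
            congr 2
            push_cast
            field_simp
    intro i j
    exact ⟨‖H 0‖, q, fun k => (entry_le _ i j).trans (hbd k)⟩

end growth

theorem hod : Pool.Agent.P8H30.OX.S_HOD := by
  intro n N0 N1 H hH hg z hz hz0 i j
  have hd : HasDerivAt (ps fun k => H k i j) (deriv (ps fun k => H k i j) z) z :=
    ((ps_an (hg i j)) z (by rwa [Metric.mem_ball, dist_zero_right])).differentiableAt.hasDerivAt
  have h1z : (1 - z) ≠ 0 := by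
    intro h0
    have : z = 1 := (sub_eq_zero.1 h0).symm
    rw [this, norm_one] at hz
    exact lt_irrefl _ hz
  refine hd.congr_deriv ?_
  have hgl : PG fun k => (N0 * H k) i j := by
    simp only [Matrix.mul_apply]
    exact PG.sum _ fun l _ => (hg l j).smul _
  have hgr : PG fun k => (H k * N0) i j := by
    simp only [Matrix.mul_apply]
    refine PG.sum _ fun l _ => ?_
    simp only [mul_comm (H _ i l)]
    exact (hg i l).smul _
  have hg1 : PG fun k => (N1 * H k) i j := by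
    simp only [Matrix.mul_apply]
    exact PG.sum _ fun l _ => (hg l j).smul _
  have el : ps (fun k => (N0 * H k) i j) z = (N0 * Hf H z) i j := by
    simp only [Matrix.mul_apply]
    rw [ps_sum _ (fun l _ => (hg l j).smul _) hz]
    exact Finset.sum_congr rfl fun l _ => ps_smul _ _
  have er : ps (fun k => (H k * N0) i j) z = (Hf H z * N0) i j := by
    simp only [Matrix.mul_apply, mul_comm (H _ i _)]
    rw [ps_sum _ (fun l _ => (hg i l).smul _) hz]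
    refine Finset.sum_congr rfl fun l _ => ?_
    rw [ps_smul, mul_comm]
    rfl
  have e1 : ps (fun k => (N1 * H k) i j) z = (N1 * Hf H z) i j := by
    simp only [Matrix.mul_apply]
    rw [ps_sum _ (fun l _ => (hg l j).smul _) hz]
    exact Finset.sum_congr rfl fun l _ => ps_smul _ _
  set D : ℕ → ℂ := fun k => (k : ℂ) * H k i j + ((H k * N0) i j + (-1) * (N0 * H k) i j) with hD
  have hDg : PG D := (hg i j).nat.add (hgr.add (hgl.smul (-1)))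
  have eD : ps D z = z * deriv (ps fun k => H k i j) z + ((Hf H z * N0) i j - (N0 * Hf H z) i j) := by
    rw [hD, ps_add (hg i j).nat (hgr.add (hgl.smul (-1))) hz, ps_add hgr (hgl.smul (-1)) hz, ps_smul, el, er,
      ← ps_deriv (hg i j) hz]
    ring
  have hD0 : D 0 = 0 := by
    rw [hD]
    simp only
    rw [hH.zero]
    simp
  have hDs : ∀ k, D (k + 1) = D k + (N1 * H k) i j := by
    intro k
    have := congrFun (congrFun (hH.step k) i) j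
    simp only [Matrix.add_apply, Matrix.smul_apply, Matrix.sub_apply, smul_eq_mul] at this
    rw [hD]
    simp only
    push_cast
    linear_combination this
  have hfin : ps D z = z * (ps D z + (N1 * Hf H z) i j) := by
    conv_lhs => rw [ps_shift hDg hz, hD0, zero_add]
    congr 1
    simp only [hDs]
    rw [ps_add hDg hg1 hz, e1]
  simp only [Matrix.add_apply, Matrix.smul_apply, Matrix.sub_apply, smul_eq_mul]
  rw [eD] at hfin
  have h2 : (1 - z) * (z * deriv (ps fun k => H k i j) z + ((Hf H z * N0) i j - (N0 * Hf H z) i j)) =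
      z * (N1 * Hf H z) i j := by linear_combination hfin
  field_simp
  linear_combination h2

end Pool.Agent.P8H21.OX
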