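import Pool.Agent.P8H30.OX.Stm

/-!
# Project OX, package SNO: the singularity of the first solution at the reflection point
(adapted from `Y119/HY/Data2.lean`)
-/

set_option autoImplicit false

open Filter Topology Matrix

namespace Pool.Agent.P8H21.OX

open Pool.Agent.Y119.HY
open Pool.Agent.P8H30.MX (QG bl es S_SOL S_HFB S_EBL bl_mul bl_natAdd)

lemma a0_ne' {n : ℕ} {Q : Polynomial ℚ} (hne : ∀ l : ℕ, Q.eval (l : ℚ) ≠ 0) (k : ℕ) : a0 n Q k ≠ 0 := by
  induction k with
  | zero =>
    unfold a0 aq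
    simp
  | succ k ih =>
    rw [a0_succ]
    refine mul_ne_zero ih (div_ne_zero (hne k) (pow_ne_zero _ ?_))
    exact_mod_cast Nat.succ_ne_zero k

lemma ratio' {n : ℕ} {Q : Polynomial ℚ} (hQ : QG n Q) :
    Tendsto (fun k : ℕ => (((Q.eval (k : ℚ) / ((k : ℚ) + 1) ^ n : ℚ)) : ℝ)) atTop (𝓝 1) := by
  set P : Polynomial ℝ := Q.map (algebraMap ℚ ℝ) with hP
  set R : Polynomial ℝ := (Polynomial.X + Polynomial.C 1) ^ n with hR
  have hRm : R.Monic := (Polynomial.monic_X_add_C (1 : ℝ)).pow n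
  have hPm : P.Monic := hQ.monic.map _
  have hdeg : P.degree = R.degree := by
    rw [Polynomial.degree_eq_natDegree hPm.ne_zero, Polynomial.degree_eq_natDegree hRm.ne_zero, hP,
      Polynomial.natDegree_map, hQ.deg, hR, Polynomial.natDegree_pow, Polynomial.natDegree_X_add_C, mul_one]
  have h1 := Polynomial.div_tendsto_atTop_leadingCoeff_div_of_degree_eq P R hdeg
  rw [hPm.leadingCoeff, hRm.leadingCoeff, div_one] at h1
  have h2 := h1.comp (tendsto_natCast_atTop_atTop (R := ℝ))
  refine h2.congr fun k => ?_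
  simp only [Function.comp]
  rw [hR, Polynomial.eval_pow, Polynomial.eval_add, Polynomial.eval_X, Polynomial.eval_C, hP]
  push_cast
  congr 1
  rw [Polynomial.eval_map, ← Polynomial.aeval_def]
  have := Polynomial.aeval_algebraMap_apply ℝ (k : ℚ) Q
  simp only [map_natCast] at this
  rw [this, Polynomial.aeval_def]
  rfl

/-- the first solution is singular at one -/
lemma sing' {n : ℕ} {Q : Polynomial ℚ} (hS : S_SOL) (hQ : QG n Q) (hne : ∀ l : ℕ, Q.eval (l : ℚ) ≠ 0) (g : ℂ → ℂ)
    (hg : AnalyticOnNhd ℂ g (Metric.ball 1 1))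
    (hext : ∀ z ∈ Lens, (Hf (Hc n Q) z *ᵥ ec n) ⟨0, by have := hQ.two; omega⟩ = g z) : False := by
  have hn := hQ.two
  have e1 : ∀ z, (Hf (Hc n Q) z *ᵥ ec n) ⟨0, by omega⟩ = ps (fun k => (((a0 n Q k : ℚ) : ℝ) : ℂ)) z := by
    intro z
    rw [mv_apply]
    unfold ec
    rw [Finset.sum_eq_single ⟨0, by omega⟩]
    · rw [if_pos rfl, mul_one]
      unfold Hf
      rw [Matrix.of_apply]
      congr 1
      funext k
      unfold Hc
      rw [cm_apply]
      unfold Hq hq a0
      rw [Matrix.of_apply]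
      simp
    · intro b _ hb
      rw [if_neg, mul_zero]
      intro h'
      exact hb (Fin.ext h')
    · intro h'
      exact absurd (Finset.mem_univ _) h'
  have hpg : PG fun k => (((a0 n Q k : ℚ) : ℝ) : ℂ) := by
    have h := (hS n Q hQ).growth Ac_nil ⟨0, by omega⟩ ⟨0, by omega⟩
    refine (congrArg PG ?_).mp h
    funext k
    unfold Hc
    rw [cm_apply]
    unfold Hq hq a0
    rw [Matrix.of_apply]
    simp
  obtain ⟨K₀, hK₀⟩ := Filter.eventually_atTop.1 ((ratio' hQ).eventually (lt_mem_nhds (show (9 / 10 : ℝ) < 1 by norm_num)))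
  have hstep : ∀ k, ((a0 n Q (k + 1) : ℚ) : ℝ) = ((a0 n Q k : ℚ) : ℝ) * ((Q.eval (k : ℚ) / ((k : ℚ) + 1) ^ n : ℚ) : ℝ) := by
    intro k
    rw [a0_succ]
    push_cast
    rfl
  rcases lt_or_gt_of_ne (a0_ne' (n := n) hne K₀) with h0 | h0
  · -- negative
    have hpos : ∀ k ≥ K₀, ((a0 n Q k : ℚ) : ℝ) < 0 := by
      intro k hk
      induction k, hk using Nat.le_induction with
      | base => exact_mod_cast h0
      | succ k hk ih =>
        rw [hstep]
        exact mul_neg_of_neg_of_pos ih (by linarith [hK₀ k hk])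
    refine no_ext (a := fun k => -((a0 n Q k : ℚ) : ℝ)) (K₀ := K₀) ?_ (fun k hk => by linarith [hpos k hk]) (fun k hk => ?_)
      (g := fun z => -g z) hg.neg fun z hz => ?_
    · have := hpg.smul (-1)
      refine (congrArg PG ?_).mp this
      funext k
      push_cast
      ring
    · rw [hstep]
      nlinarith [hpos k hk, hK₀ k hk]
    · rw [← hext z hz, e1 z]
      have := ps_smul (c := fun k => (((a0 n Q k : ℚ) : ℝ) : ℂ)) (-1) z
      rw [neg_one_mul] at this
      rw [← this]
      congr 1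
      funext k
      push_cast
      ring
  · have hpos : ∀ k ≥ K₀, 0 < ((a0 n Q k : ℚ) : ℝ) := by
      intro k hk
      induction k, hk using Nat.le_induction with
      | base => exact_mod_cast h0
      | succ k hk ih =>
        rw [hstep]
        exact mul_pos ih (by linarith [hK₀ k hk])
    refine no_ext hpg hpos (fun k hk => ?_) hg fun z hz => ?_
    · rw [hstep]
      nlinarith [hpos k hk, hK₀ k hk]
    · rw [← hext z hz, e1 z]

theorem sno (hS : S_SOL) (hB : S_HFB) (hE : S_EBL) : Pool.Agent.P8H30.OX.S_SNO := by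
  intro s n Q i0 hQ hne hi0 g hg hext
  have hn := hQ.two
  have hi0' : i0 = Fin.natAdd s (⟨0, by omega⟩ : Fin n) := Fin.ext (by simpa using hi0)
  refine sing' hS hQ hne g hg fun z hz => ?_
  rw [← hext z hz]
  obtain ⟨b, hb⟩ := hB s n Q z
  obtain ⟨P, R, hPR⟩ := hE s n (Complex.log z)
  have h1 : Yf (cm (Am (s + n))) (Hc (s + n) (Polynomial.X ^ s * Q)) z =
      bl ((1 : Matrix (Fin s) (Fin s) ℂ) * P) ((1 : Matrix (Fin s) (Fin s) ℂ) * R +
        b * E (cm (Am n)) (Complex.log z)) (Hf (Hc n Q) z * E (cm (Am n)) (Complex.log z)) := by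
    unfold Yf
    rw [hb, hPR, bl_mul]
  have hes : ((Yf (cm (Am (s + n))) (Hc (s + n) (Polynomial.X ^ s * Q)) z) *ᵥ es s n) i0 =
      Yf (cm (Am (s + n))) (Hc (s + n) (Polynomial.X ^ s * Q)) z i0 i0 := by
    rw [mv_apply, Finset.sum_eq_single i0]
    · unfold es
      rw [if_pos hi0, mul_one]
    · intro b _ hb
      unfold es
      rw [if_neg, mul_zero]
      intro h
      exact hb (Fin.ext (h.trans hi0.symm))
    · intro h
      exact absurd (Finset.mem_univ _) h
  rw [hes, h1, hi0', bl_natAdd]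
  have h2 : (Hf (Hc n Q) z *ᵥ ec n) = (Hf (Hc n Q) z * E (cm (Am n)) (Complex.log z)) *ᵥ ec n := by
    rw [← mulVec_mulVec, E_fix (Ac_ec n)]
  rw [h2, mv_apply, Finset.sum_eq_single ⟨0, by omega⟩]
  · unfold ec
    rw [if_pos rfl, mul_one]
  · intro b _ hb
    unfold ec
    rw [if_neg, mul_zero]
    intro h
    exact hb (Fin.ext h)
  · intro h
    exact absurd (Finset.mem_univ _) h

end Pool.Agent.P8H21.OX
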